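import Pool.Agent.H62.CYC.DefsX
import Pool.Agent.H49.CYC.Gr0
import Pool.Graph.R_seed8.W709.QAT.Calc
import Pool.Graph.R_seed8.W305.VC.Pot

/-!
# Project CYC2, module PSML: the terms with small `k`
-/

set_option autoImplicit false

namespace Pool.Agent.H12.CYC

open Finset Filter MeasureTheory
open Pool.Agent.H62.CYC
open Pool.Agent.W707.TV (vh Rh Rh_pos)
open GapVol (lob)
open Pool.Agent.H49.CYC
open scoped Real Topology

/-! ### Inequalities for Lobachevsky's function -/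

lemma ff {a : ℝ} (h0 : 0 ≤ a) (h1 : a ≤ π / 2) (y : ℝ) : lob (a - y) + lob (a + y) ≤ 2 * lob a := by
  obtain ⟨b, hb0, hb1, hb⟩ := Pool.Agent.W709.QAT.red y
  rw [hb a]
  have := EvenVol.LobIneq.FF_nonpos h0 h1 hb0 hb1
  unfold EvenVol.LobIneq.FF at this
  linarith

lemma i1 {a : ℝ} (h0 : 0 ≤ a) (h1 : a ≤ π / 2) (x : ℝ) :
    lob (x - a) - lob (x + a) ≤ 2 * lob (π / 2 - a) := by
  have h := ff (a := π / 2 - a) (by linarith) (by linarith) (x - π / 2)
  have e1 : lob (π / 2 - a - (x - π / 2)) = -lob (x + a) := by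
    rw [← Pool.Agent.W709.QAT.lob_pi_sub]
    congr 1
    ring
  have e2 : π / 2 - a + (x - π / 2) = x - a := by ring
  rw [e1, e2] at h
  linarith

lemma i3 (a : ℝ) : lob (2 * a) = 2 * lob a - 2 * lob (π / 2 - a) := by
  rw [Pool.Agent.W305.VC.lob_two_mul]
  have e1 : lob (a + π / 2) = -lob (π / 2 - a) := by
    rw [← Pool.Agent.W709.QAT.lob_pi_sub]
    congr 1
    ring
  rw [e1]
  ring

lemma i4 (a : ℝ) : lob a + lob (π / 2 - a) ≤ 2 * lob (π / 4) := by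
  have hp := Real.pi_pos
  have h := ff (a := π / 4) (by linarith) (by linarith) (a - π / 4)
  have e1 : π / 4 - (a - π / 4) = π / 2 - a := by ring
  have e2 : π / 4 + (a - π / 4) = a := by ring
  rw [e1, e2] at h
  linarith

/-! ### The terms of the transform -/

lemma yy_sub (M : ℕ) (x l : ℝ) : yy M x - yy M l = sg M (x + l) * sg M (x - l) := by
  unfold yy sg
  have e1 : 2 * π * (x + l) / (2 * (M : ℝ) + 1) = 2 * π * x / (2 * M + 1) + 2 * π * l / (2 * M + 1) := by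
    ring
  have e2 : 2 * π * (x - l) / (2 * (M : ℝ) + 1) = 2 * π * x / (2 * M + 1) - 2 * π * l / (2 * M + 1) := by
    ring
  have e3 : 4 * π * x / (2 * (M : ℝ) + 1) = 2 * (2 * π * x / (2 * M + 1)) := by ring
  have e4 : 4 * π * l / (2 * (M : ℝ) + 1) = 2 * (2 * π * l / (2 * M + 1)) := by ring
  rw [e1, e2, e3, e4, Real.cos_two_mul, Real.cos_two_mul, Real.sin_add, Real.sin_sub]
  have h1 := Real.sin_sq_add_cos_sq (2 * π * x / (2 * (M : ℝ) + 1))
  have h2 := Real.sin_sq_add_cos_sq (2 * π * l / (2 * (M : ℝ) + 1))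
  linear_combination (-4 * Real.cos (2 * π * l / (2 * (M : ℝ) + 1)) ^ 2) * h1 +
    (4 * Real.cos (2 * π * x / (2 * (M : ℝ) + 1)) ^ 2) * h2

lemma sg_two (M : ℕ) (x : ℝ) : |sg M x| ≤ 2 := by
  unfold sg
  rw [abs_mul, abs_two]
  have := Real.abs_sin_le_one (2 * π * x / (2 * M + 1))
  linarith

lemma term_le {M k b : ℕ} (hb : b < M) {E : ℝ}
    (hE : k ≤ b → |sf M (b + 1 + k)| ≤ Real.exp E * |sf M (b - k)|) :
    |sg M ((b : ℝ) + 1) ^ 2 * ∏ l ∈ range k, (yy M ((b : ℝ) + 1) - yy M ((l : ℝ) + 1))| ≤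
      2 * Real.exp E := by
  rcases Nat.lt_or_ge b k with h | h
  · rw [prod_eq_zero (mem_range.2 h) (sub_self _), mul_zero, abs_zero]
    positivity
  · have hE := hE h
    have h1 : ∏ l ∈ range k, (yy M ((b : ℝ) + 1) - yy M ((l : ℝ) + 1)) =
        (∏ l ∈ range k, sg M ((b : ℝ) + 1 + ((l : ℝ) + 1))) *
          ∏ l ∈ range k, sg M ((b : ℝ) + 1 - ((l : ℝ) + 1)) := by
      rw [← prod_mul_distrib]
      exact prod_congr rfl fun l _ => yy_sub _ _ _
    have hP : sf M (b + 1 + k) = sf M (b + 1) * ∏ l ∈ range k, sg M ((b : ℝ) + 1 + ((l : ℝ) + 1)) := by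
      rw [sf_add]
      congr 1
      refine prod_congr rfl fun j _ => ?_
      congr 1
      push_cast
      ring
    have hN : sf M b = sf M (b - k) * ∏ l ∈ range k, sg M ((b : ℝ) + 1 - ((l : ℝ) + 1)) := by
      have h2 := sf_add M (b - k) k
      rw [Nat.sub_add_cancel h] at h2
      rw [h2]
      congr 1
      rw [← prod_range_reflect (fun l : ℕ => sg M ((b : ℝ) + 1 - ((l : ℝ) + 1)))]
      refine prod_congr rfl fun j hj => ?_
      have hj' := mem_range.1 hj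
      have h3 : ((k - 1 - j : ℕ) : ℝ) + j + 1 = k := by
        have : k - 1 - j + j + 1 = k := by omega
        exact_mod_cast this
      have h4 : ((b - k : ℕ) : ℝ) + k = b := by exact_mod_cast Nat.sub_add_cancel h
      congr 1
      rw [Nat.cast_add]
      linarith
    have hs : sf M (b + 1) = sf M b * sg M ((b : ℝ) + 1) := by
      unfold sf
      rw [prod_range_succ]
    have hpos : 0 < |sf M (b - k)| := abs_pos.2 (sf_ne (by omega))
    have key : sg M ((b : ℝ) + 1) ^ 2 * (∏ l ∈ range k, (yy M ((b : ℝ) + 1) - yy M ((l : ℝ) + 1))) *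
        sf M (b - k) = sg M ((b : ℝ) + 1) * sf M (b + 1 + k) := by
      rw [h1, hP, hs]
      conv_rhs => rw [hN]
      ring
    have key2 := congrArg abs key
    rw [abs_mul, abs_mul (sg M ((b : ℝ) + 1))] at key2
    refine le_of_mul_le_mul_right ?_ hpos
    rw [key2, mul_assoc]
    exact mul_le_mul (sg_two _ _) hE (abs_nonneg _) (by norm_num)

lemma tau_le {M k : ℕ} {t : ℕ → ℂ} (ht : ∀ b, ‖t b‖ = 1) {E : ℝ}
    (hE : ∀ b : ℕ, b < M → k ≤ b → |sf M (b + 1 + k)| ≤ Real.exp E * |sf M (b - k)|) :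
    ‖tau M t k‖ ≤ M * (2 * Real.exp E) := by
  unfold tau
  refine (norm_sum_le _ _).trans ?_
  have h1 : ∀ b ∈ range M, ‖((sg M ((b : ℝ) + 1) ^ 2 *
    ∏ l ∈ range k, (yy M ((b : ℝ) + 1) - yy M ((l : ℝ) + 1)) : ℝ) : ℂ) * t b‖ ≤ 2 * Real.exp E := by
    intro b hb
    rw [norm_mul, ht, mul_one, Complex.norm_real, Real.norm_eq_abs]
    exact term_le (mem_range.1 hb) (hE b (mem_range.1 hb))
  refine (sum_le_sum h1).trans ?_
  rw [sum_const, card_range, nsmul_eq_mul]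

lemma poly_small {ε : ℝ} (hε : 0 < ε) : ∀ᶠ M : ℕ in atTop, (2 * (M : ℝ)) ^ 2 ≤ Real.exp (ε / 2 * M) := by
  filter_upwards [tendsto_natCast_atTop_atTop.eventually_ge_atTop (128 / ε ^ 2)] with M hM
  have h0 : (0 : ℝ) ≤ M := Nat.cast_nonneg M
  have h1 : 128 ≤ M * ε ^ 2 := by
    rwa [div_le_iff₀ (by positivity)] at hM
  obtain ⟨y, hy⟩ : ∃ y : ℝ, y = ε * M / 8 := ⟨_, rfl⟩
  have hy0 : 0 ≤ y := by rw [hy]; positivity
  have h2 : y ≤ Real.exp y := by
    have := Real.add_one_le_exp y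
    linarith
  have h3 : 2 * (M : ℝ) ≤ y ^ 2 := by
    rw [hy]
    nlinarith
  have h4 : Real.exp (ε / 2 * M) = (Real.exp y ^ 2) ^ 2 := by
    rw [← Real.exp_nat_mul, ← Real.exp_nat_mul, hy]
    congr 1
    push_cast
    ring
  rw [h4]
  have h5 : y ^ 2 ≤ Real.exp y ^ 2 := pow_le_pow_left₀ hy0 h2 2
  exact pow_le_pow_left₀ (by positivity) (h3.trans h5) 2

/-- the logarithm of a weight -/
lemma wg_log {M c i : ℕ} {δ : ℝ} (hB : ∀ k : ℕ, k < 2 * M + 1 →
    |Real.log ‖EvenVol.brf (vh M) k‖ + Rh M / π * lob (π * k / Rh M)| ≤ δ * M)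
    (hk : c + i < M) :
    |sf M (c + i) ^ 2 / (sf M i * sf M (2 * c + i + 1) * sf M (2 * c + 2 * i + 1))| ≤
    Real.exp (Rh M / π * (-2 * lob (π * ((c + i : ℕ) : ℝ) / Rh M) +
      lob (π * (i : ℝ) / Rh M) + lob (π * ((2 * c + i + 1 : ℕ) : ℝ) / Rh M) +
      lob (π * ((2 * c + 2 * i + 1 : ℕ) : ℝ) / Rh M)) + 5 * (δ * M)) := by
  have h1 : 0 < |sf M (c + i)| := abs_pos.2 (sf_ne (by omega))
  have h2 : 0 < |sf M i| := abs_pos.2 (sf_ne (by omega))
  have h3 : 0 < |sf M (2 * c + i + 1)| := abs_pos.2 (sf_ne (by omega))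
  have h4 : 0 < |sf M (2 * c + 2 * i + 1)| := abs_pos.2 (sf_ne (by omega))
  rw [abs_div, abs_mul, abs_mul, abs_pow]
  rw [← Real.log_le_iff_le_exp (by positivity)]
  rw [Real.log_div (by positivity) (by positivity), Real.log_mul (by positivity) (by positivity),
    Real.log_mul (by positivity) (by positivity), Real.log_pow]
  have b1 := abs_le.1 (hB (c + i) (by omega))
  have b2 := abs_le.1 (hB i (by omega))
  have b3 := abs_le.1 (hB (2 * c + i + 1) (by omega))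
  have b4 := abs_le.1 (hB (2 * c + 2 * i + 1) (by omega))
  rw [norm_brf] at b1 b2 b3 b4
  set x1 := Rh M / π * lob (π * ((c + i : ℕ) : ℝ) / Rh M) with hx1
  set x2 := Rh M / π * lob (π * (i : ℝ) / Rh M) with hx2
  set x3 := Rh M / π * lob (π * ((2 * c + i + 1 : ℕ) : ℝ) / Rh M) with hx3
  set x4 := Rh M / π * lob (π * ((2 * c + 2 * i + 1 : ℕ) : ℝ) / Rh M) with hx4
  have e5 : Rh M / π * (-2 * lob (π * ((c + i : ℕ) : ℝ) / Rh M) +
      lob (π * (i : ℝ) / Rh M) + lob (π * ((2 * c + i + 1 : ℕ) : ℝ) / Rh M) +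
      lob (π * ((2 * c + 2 * i + 1 : ℕ) : ℝ) / Rh M)) = -2 * x1 + x2 + x3 + x4 := by
    rw [hx1, hx2, hx3, hx4]
    ring
  rw [e5]
  push_cast
  linarith [b1.1, b1.2, b2.1, b2.2, b3.1, b3.2, b4.1, b4.2]

theorem psml0 : ∀ ε : ℝ, 0 < ε → ∀ᶠ M : ℕ in atTop, ∀ t : ℕ → ℂ, (∀ b, ‖t b‖ = 1) →
    ∀ c i : ℕ, 2 * (c + i) ≤ M → c + i < M → ‖tau M t (c + i)‖ ^ 2 *
      |sf M (c + i) ^ 2 / (sf M i * sf M (2 * c + i + 1) * sf M (2 * c + 2 * i + 1))| ≤
      Real.exp ((2 * M + 1) / (2 * π) * (4 * GapVol.lob (π / 4)) + ε * M) := by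
  intro ε hε
  have hp := Real.pi_pos
  have hp3 := Real.pi_gt_three
  obtain ⟨δ, hδ, hu⟩ := Pool.Agent.W125.TV.lob_uc (show 0 < ε / 16 by positivity)
  have t3 : ∀ᶠ M : ℕ in atTop, π / (M : ℝ) < δ :=
    (tendsto_const_div_atTop_nhds_zero_nat π).eventually (gt_mem_nhds hδ)
  filter_upwards [Pool.Agent.W125.TV.brf_asymp (ε / 40) (by positivity), t3, poly_small hε,
    eventually_ge_atTop 1] with M hB hM hpol hM1
  intro t ht c i hk2 hk
  have hR := Rh_pos M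
  have hRe : Rh M = M + 1 / 2 := rfl
  have hMr : (1 : ℝ) ≤ M := by exact_mod_cast hM1
  have hM0 : (0 : ℝ) < M := by linarith
  have hRM : Rh M / π ≤ M := by
    rw [div_le_iff₀ hp, hRe]
    nlinarith
  have hRp : 0 < Rh M / π := by positivity
  have hw := wg_log hB hk
  obtain ⟨k, hkdef⟩ : ∃ k : ℕ, k = c + i := ⟨_, rfl⟩
  have hkr : (k : ℝ) = c + i := by
    rw [hkdef]
    push_cast
    ring
  rw [← hkdef] at hk hk2 hw ⊢
  have hdel : π / Rh M < δ := by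
    refine lt_of_le_of_lt ?_ hM
    exact div_le_div_of_nonneg_left hp.le hM0 (by rw [hRe]; linarith)
  obtain ⟨a, ha⟩ : ∃ a : ℝ, a = π * (k : ℝ) / Rh M := ⟨_, rfl⟩
  obtain ⟨γ, hγ⟩ : ∃ γ : ℝ, γ = π * (c : ℝ) / Rh M := ⟨_, rfl⟩
  have hkM2 : 2 * (k : ℝ) ≤ M := by exact_mod_cast hk2
  have hk0 : (0 : ℝ) ≤ k := Nat.cast_nonneg k
  have hc0 : (0 : ℝ) ≤ c := Nat.cast_nonneg c
  have hi0 : (0 : ℝ) ≤ i := Nat.cast_nonneg i
  have ha0 : 0 ≤ a := by rw [ha]; positivity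
  have ha1 : a ≤ π / 2 := by
    rw [ha, div_le_iff₀ hR, hRe]
    nlinarith
  have hθ : ∀ x : ℝ, 0 ≤ x → x ≤ 2 * M → π * x / Rh M ∈ Set.Icc (0 : ℝ) (2 * π) := by
    intro x h0 h1
    refine ⟨by positivity, ?_⟩
    rw [div_le_iff₀ hR, hRe]
    nlinarith
  have hshift : ∀ x : ℝ, 0 ≤ x → x + 1 ≤ 2 * M →
      |lob (π * (x + 1) / Rh M) - lob (π * x / Rh M)| ≤ ε / 16 := by
    intro x h0 h1
    refine hu _ (hθ _ (by linarith) h1) _ (hθ _ h0 (by linarith)) ?_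
    have e : π * (x + 1) / Rh M - π * x / Rh M = π / Rh M := by
      field_simp
      ring
    rw [e, abs_of_pos (by positivity)]
    exact hdel
  -- the transform
  obtain ⟨E, hEdef⟩ : ∃ E : ℝ, E = Rh M / π * (2 * lob (π / 2 - a) + ε / 16) + 2 * (ε / 40 * M) :=
    ⟨_, rfl⟩
  have hT : ‖tau M t k‖ ≤ M * (2 * Real.exp E) := by
    refine tau_le ht fun b hb hkb => ?_
    have h1 : 0 < |sf M (b + 1 + k)| := abs_pos.2 (sf_ne (by omega))
    have h2 : 0 < |sf M (b - k)| := abs_pos.2 (sf_ne (by omega))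
    have b1 := abs_le.1 (hB (b + 1 + k) (by omega))
    have b2 := abs_le.1 (hB (b - k) (by omega))
    rw [norm_brf] at b1 b2
    have hbk : ((b - k : ℕ) : ℝ) + k = b := by exact_mod_cast Nat.sub_add_cancel hkb
    have hbk0 : (0 : ℝ) ≤ ((b - k : ℕ) : ℝ) := Nat.cast_nonneg _
    have hbM : (b : ℝ) + 1 ≤ M := by exact_mod_cast hb
    have h3 := hshift ((b - k : ℕ) : ℝ) hbk0 (by linarith)
    have h4 := i1 ha0 ha1 (π * ((b : ℝ) + 1) / Rh M)
    have e1 : π * ((b : ℝ) + 1) / Rh M - a = π * (((b - k : ℕ) : ℝ) + 1) / Rh M := by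
      rw [ha, ← sub_div]
      congr 1
      rw [← hbk]
      ring
    have e2 : π * ((b : ℝ) + 1) / Rh M + a = π * ((b + 1 + k : ℕ) : ℝ) / Rh M := by
      rw [ha, ← add_div]
      congr 1
      push_cast
      ring
    rw [e1, e2] at h4
    have h5 : lob (π * ((b - k : ℕ) : ℝ) / Rh M) - lob (π * ((b + 1 + k : ℕ) : ℝ) / Rh M) ≤
        2 * lob (π / 2 - a) + ε / 16 := by
      linarith [(abs_le.1 h3).1]
    have h6 := mul_le_mul_of_nonneg_left h5 hRp.le
    rw [← Real.log_le_log_iff h1 (by positivity), Real.log_mul (Real.exp_pos _).ne' h2.ne',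
      Real.log_exp, hEdef]
    rw [mul_sub] at h6
    linarith [b1.2, b2.1]
  -- the weight
  have hW : Rh M / π * (-2 * lob (π * (k : ℝ) / Rh M) + lob (π * (i : ℝ) / Rh M) +
      lob (π * ((2 * c + i + 1 : ℕ) : ℝ) / Rh M) + lob (π * ((2 * c + 2 * i + 1 : ℕ) : ℝ) / Rh M)) +
      5 * (ε / 40 * M) ≤ Rh M / π * (2 * lob a - 2 * lob (π / 2 - a) + 2 * (ε / 16)) +
        5 * (ε / 40 * M) := by
    have h1 := ff ha0 ha1 γ
    have e1 : a - γ = π * (i : ℝ) / Rh M := by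
      rw [ha, hγ, ← sub_div, hkr]
      congr 1
      ring
    rw [e1] at h1
    have h2 := hshift (k + c) (by linarith) (by
      have : k + c + 1 ≤ 2 * M := by omega
      exact_mod_cast this)
    have e2 : a + γ = π * ((k : ℝ) + c) / Rh M := by
      rw [ha, hγ, ← add_div]
      congr 1
      ring
    have e3 : ((2 * c + i + 1 : ℕ) : ℝ) = (k : ℝ) + c + 1 := by
      rw [hkr]
      push_cast
      ring
    have h3 := hshift (2 * k) (by linarith) (by
      have : 2 * k + 1 ≤ 2 * M := by omega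
      exact_mod_cast this)
    have e4 : 2 * a = π * (2 * (k : ℝ)) / Rh M := by
      rw [ha]
      ring
    have e5 : ((2 * c + 2 * i + 1 : ℕ) : ℝ) = 2 * (k : ℝ) + 1 := by
      rw [hkr]
      push_cast
      ring
    rw [e2] at h1
    rw [← e4, i3] at h3
    rw [e3, e5, ← ha]
    have h4 := mul_le_mul_of_nonneg_left (show -2 * lob a + lob (π * (i : ℝ) / Rh M) +
      lob (π * ((k : ℝ) + c + 1) / Rh M) + lob (π * (2 * (k : ℝ) + 1) / Rh M) ≤
      2 * lob a - 2 * lob (π / 2 - a) + 2 * (ε / 16) by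
        linarith [(abs_le.1 h2).2, (abs_le.1 h3).2]) hRp.le
    linarith
  have hw2 := hw.trans (Real.exp_le_exp.2 hW)
  have hT2 : ‖tau M t k‖ ^ 2 ≤ (2 * (M : ℝ)) ^ 2 * Real.exp (2 * E) := by
    have h1 := pow_le_pow_left₀ (norm_nonneg _) hT 2
    refine h1.trans (le_of_eq ?_)
    rw [show (2 : ℝ) * E = ((2 : ℕ) : ℝ) * E by norm_num, Real.exp_nat_mul]
    ring
  have hT3 := hT2.trans (mul_le_mul_of_nonneg_right hpol (Real.exp_pos (2 * E)).le)
  refine (mul_le_mul hT3 hw2 (abs_nonneg _) (by positivity)).trans ?_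
  rw [← Real.exp_add, ← Real.exp_add]
  refine Real.exp_le_exp.2 ?_
  have e6 : (2 * (M : ℝ) + 1) / (2 * π) = Rh M / π := by
    rw [hRe]
    field_simp
  rw [e6, hEdef]
  have h7 := mul_le_mul_of_nonneg_left (i4 a) hRp.le
  have h8 : Rh M / π * (ε / 16) ≤ M * (ε / 16) := mul_le_mul_of_nonneg_right hRM (by positivity)
  have h9 : 0 < ε * M := by positivity
  nlinarith [h7, h8, h9]

end Pool.Agent.H12.CYC
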