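import Pool.Agent.H62.CYC.DefsP
import Pool.Agent.H12.CYC.PSml0

/-!
# Project CYC2, module PSML
-/

set_option autoImplicit false

namespace Pool.Agent.H12.CYC

open Pool.Agent.H62.CYC

theorem psml : S_PSML := psml0

end Pool.Agent.H12.CYC
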